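import Pool.Agent.P8H9.TQ.Stm

set_option autoImplicit false

/-!
# Project TQ, package ARC: the loss at the multiples of a point, at a complex place
-/

namespace Pool.Agent.P8H57.TQ

open WeierstrassCurve NumberField IsDedekindDomain Pool.Agent.H901R3.MS Pool.Agent.Y673.Loc
open Pool.Agent.Y673.Loc.ZV Pool.Agent.W275.FM Pool.Agent.W275.FMK Pool.Agent.Y673.FM
open Pool.Agent.H691R3 Pool.Agent.W223.AK Pool.Agent.Y733.LS Pool.Agent.TH942
open Pool.Agent.Q19.SU Pool.Agent.P8H9.TQ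

theorem dn_nonneg (t : ℝ) : 0 ≤ dn t := abs_nonneg _

theorem dn_le (t : ℝ) : dn t ≤ 1 / 2 := abs_sub_round t

theorem dn_zero : dn 0 = 0 := by
  unfold dn
  simp

theorem one_le_fac (k m : ℕ) : (1 : ℝ) ≤ 3 ^ k * 2 ^ m :=
  one_le_mul_of_one_le_of_one_le (one_le_pow₀ (by norm_num)) (one_le_pow₀ (by norm_num))

/-- package ARC -/
theorem arc : S_ARC := by
  intro hkap hksm hroot hpair hdbl hlaw hseq
  obtain ⟨C₁, hC₁, hkap⟩ := hkap
  obtain ⟨C₂, hC₂, hksm⟩ := hksm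
  obtain ⟨J₀, c₃, hJ₀, hc₃, hroot⟩ := hroot
  obtain ⟨c, hc, hlaw⟩ := hlaw hpair hdbl
  have hlJ : 0 ≤ Real.log J₀ := Real.log_nonneg hJ₀
  refine ⟨C₁ + C₂ + c₃ + 4 * c + Real.log J₀, by positivity, ?_⟩
  intro _ a b ha hb hD P
  rcases lt_or_ge ‖jj a b‖ J₀ with hj | hj
  · refine ⟨0, ?_⟩
    intro k m x y hn _
    rw [mul_zero, dn_zero, mul_zero, zero_add]
    have h1 := hksm a b x ha hb hD
    have h2 : Real.log (max ‖jj a b‖ 1) ≤ Real.log J₀ :=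
      Real.log_le_log (lt_max_of_lt_right one_pos) (max_le hj.le hJ₀)
    have h3 := one_le_fac k m
    have h4 : C₁ + C₂ + c₃ + 4 * c + Real.log J₀ ≤
        (C₁ + C₂ + c₃ + 4 * c + Real.log J₀) * (3 ^ k * 2 ^ m) :=
      le_mul_of_one_le_right (by positivity) h3
    have h5 : (C₁ + C₂ + c₃ + 4 * c + Real.log J₀) * 3 ^ k * 2 ^ m =
        (C₁ + C₂ + c₃ + 4 * c + Real.log J₀) * (3 ^ k * 2 ^ m) := by ring
    rw [h5]
    linarith
  · obtain ⟨e, η, he, hη, rfl, rfl, hε, hlog⟩ := hroot a b hD hj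
    obtain ⟨l1, l2, l3⟩ := hlaw e η he hη hε
    obtain ⟨H, hH⟩ : ∃ H : ℝ, H = -Real.log ‖η / (3 * e)‖ := ⟨_, rfl⟩
    have hq0 : η / (3 * e) ≠ 0 := div_ne_zero hη (mul_ne_zero (by norm_num) he)
    have hHpos : 0 < H := by
      rw [hH]
      have := Real.log_neg (norm_pos_iff.mpr hq0) (lt_of_le_of_lt hε (by norm_num))
      linarith
    rw [← hH] at l1 l2 l3
    have hs := hseq (Pt (cA e η) (cB e η)) (Lev e η) c H hc hHpos rfl l1 l2 l3
    refine ⟨Lev e η P / (2 * H), ?_⟩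
    intro k m x y hn hP
    have h1 := hkap e η x he hη hε
    have h2 := hs P k m
    have h3 : Lev e η ((2 ^ m * k) • P) = lev ‖η / (3 * e)‖ ((x - e) / (3 * e)) := by
      rw [hP]
      rfl
    rw [h3] at h2
    set D : ℝ := dn (2 ^ m * k * (Lev e η P / (2 * H))) with hDdef
    have hD0 : 0 ≤ D := dn_nonneg _
    have hD1 : D ≤ 1 / 2 := dn_le _
    have h4 := (abs_le.1 h2).2
    have hW : Real.log (max ‖jj (cA e η) (cB e η)‖ 1) = Real.log ‖jj (cA e η) (cB e η)‖ := by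
      rw [max_eq_left (hJ₀.trans hj)]
    rw [hW]
    set W : ℝ := Real.log ‖jj (cA e η) (cB e η)‖ with hWdef
    have h5 : 2 * H ≤ W + c₃ := by
      have := (abs_le.1 hlog).1
      rw [hH]
      linarith
    have h6 : 2 * H * D ≤ (W + c₃) * D := mul_le_mul_of_nonneg_right h5 hD0
    have h7 : c₃ * D ≤ c₃ * (1 / 2) := mul_le_mul_of_nonneg_left hD1 hc₃
    have h8 := one_le_fac k m
    have h9 : C₁ + C₂ + c₃ + Real.log J₀ ≤ (C₁ + C₂ + c₃ + Real.log J₀) * (3 ^ k * 2 ^ m) :=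
      le_mul_of_one_le_right (by positivity) h8
    have h10 : (C₁ + C₂ + c₃ + 4 * c + Real.log J₀) * 3 ^ k * 2 ^ m =
        (C₁ + C₂ + c₃ + Real.log J₀) * (3 ^ k * 2 ^ m) + 2 * (2 * c * 3 ^ k * 2 ^ m) := by ring
    rw [h10]
    nlinarith

end Pool.Agent.P8H57.TQ
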