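import Pool.Agent.P8H9.TQ.Stm
import Pool.Agent.Q19.SU.Tel

set_option autoImplicit false

/-!
# Project TQ, packages KSM and KNA: the crude bounds of the loss
-/

namespace Pool.Agent.P8H57.TQ

open WeierstrassCurve NumberField IsDedekindDomain Pool.Agent.H901R3.MS
open Pool.Agent.H691R3 Pool.Agent.W223.AK Pool.Agent.Y733.LS
open Pool.Agent.Q19.SU Pool.Agent.P8H9.TQ

theorem cab_apply (z : ℂ) : cab z = ‖z‖ := rfl

/-- package KSM -/
theorem ksm : S_KSM := by
  refine ⟨Real.log 250, Real.log_nonneg (by norm_num), ?_⟩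
  intro a b x ha hb hD
  obtain ⟨w, hw⟩ : ∃ w : AbsoluteValue ℂ ℝ, w = cab := ⟨_, rfl⟩
  have hj : ‖jj a b‖ = w (jj a b) := by rw [hw]; rfl
  rw [← hw, hj]
  have hn : ∀ n : ℕ, w (n : ℂ) ≤ n := by
    intro n
    rw [hw, cab_apply]
    simp
  have hsz : 0 < sz w a b := sz_pos (b := b) ha
  have h1 := res_arch (w := w) hn (x := x) hsz (le_sz_sq w a b) (le_sz_cube w a b)
  have h2 : 0 < w (4 * dl a b) := w.pos (mul_ne_zero (by norm_num) hD)
  have hM : 0 < max (w x) (sz w a b) := lt_max_of_lt_right hsz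
  have hR : 0 < max (w (pF a b x)) (sz w a b * w (pG a b x)) := by
    have h3 : 0 < w (4 * dl a b) * max (w x) (sz w a b) ^ 4 := by positivity
    have h4 := h3.trans_le h1
    exact pos_of_mul_pos_right h4 (by positivity)
  have h4 := Real.log_le_log (by positivity) h1
  rw [Real.log_mul h2.ne' (pow_pos hM 4).ne', Real.log_pow,
    Real.log_mul (by positivity) hR.ne'] at h4
  have h5 : kap w a b x ≤ Real.log (1000 * sz w a b ^ 6 / w (4 * dl a b)) := by
    unfold kap
    rw [Real.log_div (by positivity) h2.ne']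
    push_cast at h4
    linarith
  refine h5.trans ?_
  have hmx : 0 < max (w (jj a b)) 1 := lt_max_of_lt_right one_pos
  rw [add_comm, ← Real.log_mul (by norm_num) hmx.ne']
  have hd : 0 < w (dl a b) := w.pos hD
  have hnum : ∀ n : ℕ, w (n : ℂ) = n := by
    intro n
    rw [hw, cab_apply]
    simp
  have h6912 : w (6912 : ℂ) = 6912 := by exact_mod_cast hnum 6912
  have h46656 : w (46656 : ℂ) = 46656 := by exact_mod_cast hnum 46656
  have h1728 : w (1728 : ℂ) = 1728 := by exact_mod_cast hnum 1728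
  have hw4 : w (4 : ℂ) = 4 := by exact_mod_cast hnum 4
  apply Real.log_le_log
  · positivity
  · rw [map_mul, hw4, div_le_iff₀ (by positivity), sz_six]
    have i1 : w (jj a b) = 6912 * w a ^ 3 / w (dl a b) := by
      have e : jj a b = 6912 * a ^ 3 / dl a b := rfl
      rw [e, map_div₀, map_mul, map_pow, h6912]
    have i2 : w (jj a b - 1728) = 46656 * w b ^ 2 / w (dl a b) := by
      have e : jj a b - 1728 = -(46656 * b ^ 2 / dl a b) := by
        have e1 : jj a b = 6912 * a ^ 3 / dl a b := rfl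
        rw [e1]
        field_simp
        unfold dl
        ring
      rw [e, map_neg_eq_map, map_div₀, map_mul, map_pow, h46656]
    have j1 : w a ^ 3 = w (jj a b) * w (dl a b) / 6912 := by
      rw [i1]
      have := hd.ne'
      field_simp
    have j2 : w b ^ 2 = w (jj a b - 1728) * w (dl a b) / 46656 := by
      rw [i2]
      have := hd.ne'
      field_simp
    have j3 : w (jj a b - 1728) ≤ w (jj a b) + 1728 := by
      have := w.sub_le (jj a b) 0 1728
      simp only [sub_zero, zero_sub, map_neg_eq_map] at this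
      linarith
    have j4 := le_max_left (w (jj a b)) 1
    have j5 := le_max_right (w (jj a b)) 1
    have k1 : w a ^ 3 ≤ max (w (jj a b)) 1 * w (dl a b) := by
      rw [j1]
      have : w (jj a b) * w (dl a b) ≤ max (w (jj a b)) 1 * w (dl a b) := by gcongr
      have : 0 ≤ w (jj a b) * w (dl a b) := by positivity
      linarith
    have k2 : w b ^ 2 ≤ max (w (jj a b)) 1 * w (dl a b) := by
      rw [j2]
      have k3 : w (jj a b - 1728) ≤ 1729 * max (w (jj a b)) 1 := by linarith
      have k4 : w (jj a b - 1728) * w (dl a b) ≤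
          1729 * max (w (jj a b)) 1 * w (dl a b) := by gcongr
      have : 0 ≤ max (w (jj a b)) 1 * w (dl a b) := by positivity
      linarith
    have k5 := max_le k1 k2
    linarith

/-- package KNA -/
theorem kna : S_KNA := by
  refine ⟨16, ?_⟩
  intro L _ _ v a b x ha hb hD
  have hn := fv_Na v
  have hsz : 0 < sz (fv v) a b := sz_pos (b := b) ha
  have h1 := res_na (w := fv v) hn (x := x) hsz (le_sz_sq (fv v) a b) (le_sz_cube (fv v) a b)
  have h2 : 0 < fv v (4 * dl a b) := (fv v).pos (mul_ne_zero (by norm_num) hD)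
  have hM : 0 < max (fv v x) (sz (fv v) a b) := lt_max_of_lt_right hsz
  have hR : 0 < max (fv v (pF a b x)) (sz (fv v) a b * fv v (pG a b x)) := by
    have h3 : 0 < fv v (4 * dl a b) * max (fv v x) (sz (fv v) a b) ^ 4 := by positivity
    have h4 := h3.trans_le h1
    exact pos_of_mul_pos_right h4 (by positivity)
  have h4 := Real.log_le_log (by positivity) h1
  rw [Real.log_mul h2.ne' (pow_pos hM 4).ne', Real.log_pow,
    Real.log_mul (by positivity) hR.ne'] at h4
  have h5 : kap (fv v) a b x ≤ Real.log (sz (fv v) a b ^ 6 / fv v (4 * dl a b)) := by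
    unfold kap
    rw [Real.log_div (by positivity) h2.ne']
    push_cast at h4
    linarith
  refine h5.trans ?_
  have hmx : 0 < max (fv v (jj a b)) 1 := lt_max_of_lt_right one_pos
  have p6 : 0 < fv v (6 : L) := (fv v).pos (by norm_num)
  have hN : Real.log (max (fv v (jj a b)) 1) - ((16 : ℕ) : ℝ) * Real.log (fv v 6) =
      Real.log (max (fv v (jj a b)) 1 / fv v 6 ^ 16) := by
    rw [Real.log_div hmx.ne' (by positivity), Real.log_pow]
  rw [hN]
  apply Real.log_le_log (by positivity)
  have n4 : fv v (4 : L) ≤ 1 := hn.ofNat 4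
  have n6912 : fv v (6912 : L) ≤ 1 := hn.ofNat 6912
  have n46656 : fv v (46656 : L) ≤ 1 := hn.ofNat 46656
  have n2187 : fv v (2187 : L) ≤ 1 := hn.ofNat 2187
  have p4 : 0 < fv v (4 : L) := (fv v).pos (by norm_num)
  have p6912 : 0 < fv v (6912 : L) := (fv v).pos (by norm_num)
  have p46656 : 0 < fv v (46656 : L) := (fv v).pos (by norm_num)
  have eN : fv v (6 : L) ^ 16 ≤ fv v 4 * fv v 6912 * fv v 46656 := by
    have e : (6 : L) ^ 16 = 4 * 6912 * 46656 * 2187 := by norm_num
    rw [← map_pow, e, map_mul, map_mul, map_mul]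
    exact mul_le_of_le_one_right (by positivity) n2187
  have j6 : 0 < fv v (dl a b) := (fv v).pos hD
  rw [map_mul, div_le_div_iff₀ (by positivity) (by positivity), sz_six]
  have i1 := w_jj (fv v) a b
  have i2 := w_jj_sub (fv v) a b hD
  have j1 : fv v 6912 * fv v a ^ 3 = fv v (jj a b) * fv v (dl a b) := by
    rw [i1]
    have := j6.ne'
    field_simp
  have j2 : fv v 46656 * fv v b ^ 2 = fv v (jj a b - 1728) * fv v (dl a b) := by
    rw [i2]
    have := j6.ne'
    field_simp
  have j3 : fv v (jj a b - 1728) ≤ max (fv v (jj a b)) 1 := by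
    refine (hn.sub _ _).trans (max_le_max le_rfl ?_)
    exact hn.ofNat 1728
  have j4 := le_max_left (fv v (jj a b)) 1
  set m := max (fv v (jj a b)) 1 with hm
  have k1 : fv v a ^ 3 * (fv v 4 * fv v 6912 * fv v 46656) ≤ m * (fv v 4 * fv v (dl a b)) := by
    calc fv v a ^ 3 * (fv v 4 * fv v 6912 * fv v 46656)
        = (fv v 6912 * fv v a ^ 3) * (fv v 4 * fv v 46656) := by ring
      _ = fv v (jj a b) * fv v (dl a b) * (fv v 4 * fv v 46656) := by rw [j1]
      _ ≤ m * fv v (dl a b) * (fv v 4 * 1) := by gcongr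
      _ = _ := by ring
  have k2 : fv v b ^ 2 * (fv v 4 * fv v 6912 * fv v 46656) ≤ m * (fv v 4 * fv v (dl a b)) := by
    calc fv v b ^ 2 * (fv v 4 * fv v 6912 * fv v 46656)
        = (fv v 46656 * fv v b ^ 2) * (fv v 4 * fv v 6912) := by ring
      _ = fv v (jj a b - 1728) * fv v (dl a b) * (fv v 4 * fv v 6912) := by rw [j2]
      _ ≤ m * fv v (dl a b) * (fv v 4 * 1) := by gcongr
      _ = _ := by ring
  have k3 : max (fv v a ^ 3) (fv v b ^ 2) * (fv v 4 * fv v 6912 * fv v 46656) ≤
      m * (fv v 4 * fv v (dl a b)) := by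
    rcases max_choice (fv v a ^ 3) (fv v b ^ 2) with h | h
    · rw [h]; exact k1
    · rw [h]; exact k2
  refine le_trans (mul_le_mul_of_nonneg_left eN ?_) k3
  exact le_max_of_le_left (pow_nonneg ((fv v).nonneg _) _)

end Pool.Agent.P8H57.TQ
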